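import Pool.Agent.Helper45M.AV.Defs3

/-!
# Q1 for abelian varieties with good reduction over every perfectoid field

The setting and the notions `Tilting`, `BaseField`, `IsConeOver`, `DimGE`, `DimLEOver`, `Approximable`,
`sectionImage` are those of `AllPerfectoidFields` and `ToricSectionsAndStability` (starting point): `K` is a
perfectoid field of characteristic `0`, `E = K♭` its tilt, `C` the completion of an algebraic closure of
`K`, and `F = C♭`. `IsClosedSubfield T E`: `E` is closed in `F` (`K♭` is complete). Closed subsets of
projective space are given by their cones, and `Approximable T K E X d` is Q1 over `K` for a closed subset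
`X` of dimension `d` defined over `K`: for all homogeneous polynomials `P_k` over `K` which vanish on `X` and
all `ε > 0` there is a closed subset `Y` of dimension `d` defined over `E = K♭` with
`|P_k(y♯)| ≤ ε ‖y‖ ^ (deg P_k)` for all `k` and all points `y` of `Y`. `HasQ1 T K E P d` is Q1 for the set
`zeros C P` of the common zeros of the `P_l`, if it has dimension at most `d`.

`OT T K` is the ring of integers `O` of `K`. `IsResidue T ρ`: `ρ : O → κ` is a homomorphism to a field with
kernel the maximal ideal; `κ` will be algebraically closed (for example the residue field of `C`).

`AVData O`: the data `P`, `A`, `o` below, `genericFibre D`: the common zeros of the `P_l` over `C`, `IsAV ρ D`: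
`IsAbelianModel ι ρ P A o` for these data and `O → C`.

`IsAbelianModel ι ρ P A o`: the forms `P_l` of positive degrees over `O` define an abelian scheme in `ℙ^n`
with zero section `o`, in terms of equations:
* the homogeneous coordinate ring `O[x] / (P)` has no torsion (flatness);
* the homogeneous coordinate ring `κ[x] / (P)` of the special fibre is an integrally closed domain;
* `A_ij(x, y)` are polynomials over `O` which are homogeneous of degree `2` in `x` and in `y`
  (`IsBihom`), and (`IsGroupLaw`) the points over `C` of the projective variety given by the `P_l` form a
  commutative group with zero `o` such that for all points `x`, `y` we have `A_ij(x, y) = s_i d_j` where `s`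
  and `d` are homogeneous coordinates of `x + y` and `x - y`; and the same for the points over `κ`.

Every abelian scheme `𝒜` over `O` satisfies this in the following embeddings. Let `M` be a symmetric ample
line bundle and `L = M ^ k`, `k ≥ 3`. Then `L` is very ample and projectively normal on all fibres
(Koizumi, Mumford, Sekiguchi), the modules `H⁰(𝒜, L ^ m)` are free and commute with base change, so
`⨁ H⁰(𝒜, L ^ m)` is the homogeneous coordinate ring, it is flat, and it is normal for the special fibre. For
`σ(x, y) = (x + y, x - y)` we have `σ^*(L ⊠ L) = L ^ 2 ⊠ L ^ 2`, as `L` is symmetric, and the sections of
`L ^ 2` are quadratic forms in the coordinates: this gives the `A_ij`. (These facts are not part of the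
formal statement.)

Theorem. For every perfectoid field `K` of characteristic `0` and every abelian model over its ring of
integers:
(1) (`HasInsepSelfMap`) `(P)` is a flat model with reduced special fibre (`IsModel`) and it has a self-map given by forms of degree
`p ^ 4` (the multiplication by `p ^ 2`) which is inseparable in the sense of `InseparableTowers`: these forms
are `p`-th powers in the homogeneous coordinate ring up to coefficients of absolute value at most
`β < 1` (`IsInseparableMap`). So the theorems of `InseparableTowers` and `UniformRadius` apply.
(2) Q1 holds for the generic fibre `X`, in the given embedding.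
(3) Q1 holds for all finite unions of dimension `d` of images `f_i(X_i ∩ V(h_i))` (`IsAVSection`), where the `X_i` are
generic fibres of abelian models, `dim X_i = d + c_i`, `h_i` consists of `c_i` forms over `K`, and `f_i` is given
by forms of the same positive degree over `K` without common zeros on `X_i ∩ V(h_i)`.
Moreover the homomorphism `ρ` to an algebraically closed field exists for all `K` (`HasResidue`), the residue field
lifts to `E` (`IsResLift`, the hypothesis of part (3) of `InseparableTowers`) for all `K`, and `K = C` is allowed.

So Q1 holds for all abelian varieties with good reduction, of any dimension, in all projective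
embeddings (if `N` is very ample and symmetric then `[k]^* N = (N ^ k) ^ k`, so `A` embedded by `N` is the image of `A`
embedded by `N ^ k` under forms of degree `k`; every `N` is symmetric after a translation), with the theorem on
the descent of the base field (starting point) for potentially good reduction, and for Kummer varieties and
other quotients, and for all complete intersections in abelian varieties, such as theta divisors
and smooth curves and surfaces of general type. An abelian variety of dimension greater than one is not a
complete intersection, and if it is not isogenous to a product of elliptic curves it has no non-constant map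
from a complete intersection of dimension greater than one.

Proof. * (MULT) By recursion there are forms `Φ^(m)` of degree `m ^ 2` over `O` for the multiplication by
`m` with `A_ij(Φ^(m), x) = Φ^(m+1)_i Φ^(m-1)_j` modulo `(P)`: `U_ij = A_ij(Φ^(m), x)` and
`Ψ = Φ^(m-1)` satisfy `U_ij Ψ_k = U_ik Ψ_j` (Nullstellensatz over `C` and flatness), and `Ψ` has no common zeros
on the special fibre. Over `κ` this implies `U_ij = φ_i Ψ_j` (EBAR): if not, let `s` be a form of maximal degree
such that `w = s U_ik / Ψ_k` is not in the coordinate ring; then `w` maps the irrelevant ideal to itself, so
`w` is integral, a contradiction to normality. This lifts to `O` (EXACT): the graded pieces of the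
coordinate ring are free modules as `O` is a valuation ring, so the kernel of `U ↦ (U_j Ψ_k - U_k Ψ_j)` is a
finitely generated direct summand, and Nakayama's lemma applies.
* (SYM) On the special fibre the differential of the multiplication by `p` is zero: let
`B(z_1, ..., z_p)` be the iterated sum defined by one column of `A` in each step. For points, `B` is a multiple of
the coordinates of the sum, and so it is symmetric up to scalars. Hence, modulo multiples of `B`, the
derivative of `B` in the direction of a tangent vector in the `k`-th variable at the diagonal does not
depend on `k`, and the derivative of `B(x, ..., x)`, a multiple of `Φ^(p)`, is `p` times it, i.e. `0`.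
* (DER) So all derivations of the function field kill `Φ^(p)_i / Φ^(p)_j`, and these are `p`-th powers.
* (PPOW) Hence `Φ^(p)_i(Φ^(p))` is a `p`-th power in the function field, up to a `p`-th power, and by
normality in the coordinate ring. So the multiplication by `p ^ 2` is inseparable.
* The residue field `k` of `K` lifts to `E`: take a maximal subfield of the ring of integers of `E`; it is
perfect, and by Newton's method it is mapped onto the residue field.
* Conclude with `InseparableTowers`, (3), and with `ToricSectionsAndStability`.
-/

set_option autoImplicit false

namespace Pool.Agent.Results.MP_db3ab1_ag.AbelianVarieties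

open MvPolynomial Pool.Agent.Y129.TA Pool.Agent.Y129.TB Pool.Agent.R388.TP
  Pool.Agent.Helper45M.DB Pool.Agent.Helper45M.AV

/-- Over every perfectoid field `K`: abelian varieties with good reduction have an inseparable self-map,
Q1 holds for them and for the finite unions of images of complete intersections in them. The
hypotheses on `ρ` and on the residue field are satisfied for every `K`, and `K = C` is allowed. -/
theorem result {p : ℕ} [Fact p.Prime] {C F : Type} [Field C] [Field F] [CharP F p]
    [IsAlgClosed C] [IsAlgClosed F] (T : Tilting p C F) :
    (∀ (K E : Type) [Field K] [Field E] [Algebra K C] [Algebra E F], BaseField T K E →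
      IsClosedSubfield T.toTiltPair E →
      (∀ (κ : Type) [Field κ] [IsAlgClosed κ] (ρ : OT T.toTiltPair K →+* κ),
        IsResidue T.toTiltPair ρ →
        (∀ D : AVData (OT T.toTiltPair K), IsAV ρ D → HasInsepSelfMap D (p ^ 4) ∧
          ∀ d, DimGE (genericFibre D) d → HasQ1 T.toTiltPair K E D.P d) ∧
        ∀ (N n d : ℕ) (S : Fin N → Set (Fin (n + 1) → C)), 0 < N →
          (∀ i, IsAVSection ρ (S i) d) → DimLEOver K (⋃ i, S i) d →
            IsConeOver K (⋃ i, S i) ∧ DimGE (⋃ i, S i) d ∧
              Approximable T.toTiltPair K E (⋃ i, S i) d) ∧
      HasResidue T.toTiltPair K ∧ ∃ τ : OT T.toTiltPair K →+* E, IsResLift T.toTiltPair τ) ∧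
    BaseField T C F ∧ IsClosedSubfield T.toTiltPair F := by
  refine ⟨fun K E _ _ _ _ B hE => ?_, baseField_self T, fun x _ => ⟨x, rfl⟩⟩
  have hτ := exists_lift_of_closed t_TAU1 T B hE
  exact ⟨fun κ _ _ ρ hρ => ⟨fun D hD => ⟨av_selfmap pieces T B hρ hD,
    fun d hd => av_main pieces T B hτ hρ hD hd⟩, fun N n d S hN hS hX =>
    av_unions pieces T B hτ hρ hN S hS hX⟩, exists_residue T.toTiltPair K, hτ⟩

end Pool.Agent.Results.MP_db3ab1_ag.AbelianVarieties
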