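import Pool.Agent.H50F.FinK

/-!
# Approximation for all curves which are images of curves in Hirzebruch surfaces

Let `K` be a perfectoid field of characteristic `0` and residue characteristic `p` with tilt `E`, `C` an
algebraically closed perfectoid field containing `K` (for example the completion of an algebraic
closure) and `F` the tilt of `C`, an extension of `E`. The structures `Tilting p C F` and
`BaseField T K E` of the starting files (`Y129/TA/Defs.lean`, `Y129/TB/Poly.lean`) list the facts on
perfectoid fields which are used (absolute values, the sharp map, the map `θ` of Fontaine).
`K = C`, `E = F` is allowed.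

Let `X'` be an integral projective curve over `K` in a Hirzebruch surface, that is in a `ℙ^1`-bundle
over `ℙ^1`, not contained in a fibre. So the function field `L` of `X'` is generated over `K` by two
elements `x` and `t`, with `x` transcendental over `K` and `L` finite over `K(x)`, and the Hirzebruch
surface has the charts with the coordinates `x`, `t` and `x⁻¹`, `t x⁻¹ ^ k`, where `x` and `x⁻¹` run through the
affine line and `t`, `t x⁻¹ ^ k` through `ℙ^1`. (Conversely `X'` is determined by `x`, `t`, `k`: it is the closure of
the point with these coordinates.) The parts of `X'` with `x ≠ ∞` and with `x ≠ 0` are finite over the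
affine line, and their coordinate rings are `RR K x t = K[x, t] ∩ K[x, t⁻¹]` and
`RR K x⁻¹ (t x⁻¹ ^ k)`.

Theorem. Let `(f 0 : ... : f n)` be a nonconstant morphism from `X'` to `ℙ^n`, given by elements `f i` of `L`
(`Mor R f` says that it is defined at all points of the spectrum of `R`; it is automatic at the normal
points of `X'`, so for smooth `X'` the `f i` are arbitrary, not all proportional). Let `X` be the image,
a closed curve in `ℙ^n` over `K`. Then Q1 holds for `X`: for all homogeneous polynomials
`P 1, ..., P r` over `K` which vanish on `X` and all `ε > 0` there is a closed subscheme `Y` of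
`ℙ^n` over the tilt `E`, of dimension one, such that `|P k (y♯)| ≤ ε ‖y‖ ^ (deg P k)` for all `k` and all points
`y` of `Y` over `F` (`Approximable`).

Remarks (not part of the formal statement).

* Examples of smooth `X'`: all smooth plane curves of all degrees (`k = 1`, project from a point outside of
  the curve); all hyperelliptic curves `t ^ 2 = h(x)` (`k = g + 1`); all trigonal curves (they lie in
  `ℙ^2` or, by Maroni, in a Hirzebruch surface); all smooth curves of all bidegrees in `ℙ^1 × ℙ^1`
  (`k = 0`); so over algebraically closed `K` all curves of genus at most four; cyclic coverings
  `t ^ m = h(x)` with squarefree `h` of a degree divisible by `m`. For each of these curves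
  the theorem holds for **every** embedding in a projective space, and more generally for all singular
  curves with this normalization and for all curves dominated by `X'`.
* Examples of singular `X'`: all integral curves in Hirzebruch surfaces and all integral plane curves.
  All curves on surfaces in `ℙ^n` swept out by lines parametrized by a rational curve are of this kind
  (this case was handed in before, over algebraically closed `K`, as
  `MP_db3ab1_ag.CurvesOnRuledSurfaces`, which the present theorem replaces).
* Known before: complete intersections (Scholze) and, in the starting files, images of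
  multigraded complete intersections, complete intersections in toric varieties, degeneracy loci. For a
  curve `X'` in a surface these give at once the morphisms whose line bundle comes from the surface; for a
  given curve and a given line bundle it is not clear that they are of this kind. The new point is a
  toric model for every curve in a Hirzebruch surface together with an arbitrary line bundle on it.

Proof. The direct image under `x` of the line bundle on `X'` generated by the `f i` is a vector bundle on
`ℙ^1` of rank `d = [L : K(x)]`, given by the module `M` generated by the `f i` over `RR K x t` and the module `W`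
generated over the ring of the other chart; let `N` consist of the `h` in `M` with `t h` in `M`. By the
theorem of Birkhoff and Grothendieck both bundles split (`S_LAT`, `S_LATM`). A point of `X'` over `x = c`,
with `t = s : w`, is a functional `y` on the fibre of `M` at `c` with `s y(t h) = w y(h)` for all `h` in `N`
(`pwR`, which needs the partition of unity `a + t b = 1` with `a`, `b`, `t a`, `t b` in `RR K x t`, `S_RPAR`, and
works also at the singular points of `X'`). In the coordinates `x_0, x_1`; `s, w`; `y_1, ..., y_d` of a
toric variety (a `ℙ^(d-1)`-bundle over the Hirzebruch surface) these are `d` equations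
(`S_POLY`), so `X'` is a complete intersection in it, and `(f 0 : ... : f n)` is given by forms of degree
`(D, 0, 1)` which have no common zeros on it. The approximation lemma for triangular systems of
weights (`S_COREK`) replaces the equations and the forms by equations over `E`, whose degrees are
multiplied by powers of `p`; a solution with generic `x` exists over the algebraic closure of `E(x)`
(`S_EXW`), all specializations of its image lie in the tube around `X` (`S_SPW2`, valuation rings; the
Nullstellensatz estimates `est1`, `est2`), and its image is not constant because the images of two
fibres of `x` are disjoint (`S_TWO2`, `est3`). So the closure `Y` of its image is a curve in the tube.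

Parts of the proof were written by helper14 (`S_SPV`, `S_SPW`), helper22 (`S_LATM`, `S_INT`), helper32
(`S_FIBF`, `S_FIBI`), helper39 (`S_XDIM`), helper41 (`S_COREK`), helper51 (`S_LAT`, `S_DED`, `S_DED2`, `S_DGE`,
`S_RINT`, `S_RPAR`), helper53 (`S_ASP`, `S_SPV2`, `S_SPW2`), helper66 (`S_COREW`, `S_EXW`), helper78 (`S_POLY`)
and helper87 (`S_RFRAC`, `S_TWO2`).
-/

set_option autoImplicit false

namespace Pool.Agent.Results.MP_db3ab1_ag.CurvesInHirzebruchSurfaces

open MvPolynomial
open Pool.Agent.H50F (RR Mor)
open Pool.Agent.Y129.TA (Tilting DimGE)
open Pool.Agent.Y129.TB (BaseField IsConeOver DimLEOver Approximable)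

/-- The cone over the closed subset of the projective space of dimension `n` over `K` with the generic point
`(f 0 : ... : f n)`, given by its points over `C`: the set of the common zeros of all homogeneous
polynomials over `K` which vanish at `f`. -/
def curve (K C : Type) [Field K] [Field C] [Algebra K C] {L : Type} [Field L] [Algebra K L] {n : ℕ}
    (f : Fin (n + 1) → L) : Set (Fin (n + 1) → C) :=
  {v | ∀ (P : MvPolynomial (Fin (n + 1)) K) (l : ℕ), P.IsHomogeneous l → aeval f P = 0 →
    aeval v P = 0}

/-- Every element of `L` which is integral over `K[x]` is in `R` (so the curve with the coordinate ring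
`R` is normal, if all elements of `R` are integral over `K[x]`). -/
def IsNormal {K L : Type} [Field K] [Field L] [Algebra K L] (x : L) (R : Subalgebra K L) : Prop :=
  ∀ r : L, IsIntegral (Algebra.adjoin K {x}) r → r ∈ R

theorem mor_of_normal {K L : Type} [Field K] [CharZero K] [Field L] [Algebra K L] {x t : L}
    (hx : Transcendental K x) (hL : FiniteDimensional (IntermediateField.adjoin K {x}) L) {n : ℕ}
    {f : Fin (n + 1) → L} (h : IsNormal x (RR K x t) ∨ Mor (RR K x t) f) : Mor (RR K x t) f := by
  rcases h with h | h
  · exact Pool.Agent.H50F.t_DED2 K L x hx hL (RR K x t)
      (fun r => ⟨Pool.Agent.H50F.t_RINT K L x t r, h r⟩) n f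
  · exact h

/-- Q1 holds, over every perfectoid field `K`, for the images of all integral curves in Hirzebruch surfaces
under all nonconstant morphisms to projective spaces. -/
theorem result {p : ℕ} [Fact p.Prime] {C F K E : Type} [Field C] [IsAlgClosed C] [Field F]
    [IsAlgClosed F] [CharP F p] [Field K] [Field E] [Algebra K C] [Algebra E F]
    (T : Tilting p C F) (B : BaseField T K E)
    {L : Type} [Field L] [Algebra K L] {x t : L} (hx : Transcendental K x)
    (hL : FiniteDimensional (IntermediateField.adjoin K {x}) L)
    (hxt : IntermediateField.adjoin K {x, t} = ⊤) {k n : ℕ} {f : Fin (n + 1) → L}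
    (h0 : IsNormal x (RR K x t) ∨ Mor (RR K x t) f)
    (h1 : IsNormal x⁻¹ (RR K x⁻¹ (t * x⁻¹ ^ k)) ∨ Mor (RR K x⁻¹ (t * x⁻¹ ^ k)) f)
    (hf : ∃ i j, Transcendental K (f i / f j)) :
    IsConeOver K (curve K C f) ∧ DimGE (curve K C f) 1 ∧ DimLEOver K (curve K C f) 1 ∧
      Approximable T.toTiltPair K E (curve K C f) 1 := by
  have hK0 : CharZero K := Pool.Agent.H50F.charZero_base T.toTiltPair
  have hKi : Infinite K := inferInstance
  have e : curve K C f = {v : Fin (n + 1) → C |
      ∀ P ∈ RingHom.ker (Pool.Agent.Helper50R.Phi (K := K) f), aeval v P = 0} := by
    ext v
    exact (Pool.Agent.H50F.mem_curve f v).symm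
  rw [e]
  exact ⟨Pool.Agent.H50F.curve_cone f,
    Pool.Agent.H50F.t_DGE K C L (Pool.Agent.H50F.trdeg_le hL) n f hf,
    Pool.Agent.H50F.t_XDIM K C L (Pool.Agent.H50F.trdeg_le hL) n f,
    Pool.Agent.H50F.fin_main T B hx hL hxt (mor_of_normal hx hL h0)
      (mor_of_normal (Pool.Agent.H50F.tr_inv hx) (Pool.Agent.H50F.fin_inv hL) h1) hf⟩

end Pool.Agent.Results.MP_db3ab1_ag.CurvesInHirzebruchSurfaces
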