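import Pool.Agent.Helper45M.DB.TowerMain

/-!
# Q1 for the bottoms of inseparable towers, for varieties with an inseparable self-map, for abelian varieties

The setting and the notions `Tilting`, `BaseField`, `IsConeOver`, `DimGE`, `DimLEOver`, `Approximable` are
those of `AllPerfectoidFields` (starting point): `K` is a perfectoid field of characteristic `0`,
`E = K♭` its tilt, `C` the completion of an algebraic closure of `K`, and `F = C♭`. Closed subsets of
projective space are given by their cones, and `Approximable T K E X d` is Q1 over `K` for a closed
subset `X` of dimension `d` defined over `K`: for all homogeneous polynomials `P_k` over `K` which vanish on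
`X` and all `ε > 0` there is a closed subset `Y` of dimension `d` defined over `E = K♭` with
`|P_k(y♯)| ≤ ε ‖y‖ ^ (deg P_k)` for all `k` and all points `y` of `Y`.

`OT T K` (as a subring: `OK T K`) is the ring of integers `O` of `K`.

`IsModel T P`: the forms `P_l` over `O` of positive degrees define a closed subscheme `𝒳` of projective
space which is flat over `O` and has a reduced special fibre (more precisely, this holds for the
homogeneous coordinate ring `O[x_0, ..., x_n] / (P_1, ..., P_r)`: it has no torsion, and it is reduced
modulo the maximal ideal).

`IsInseparableMap T P R Φ e β`: the `Φ_i` are forms of degree `e > 0` over `O` which define a morphism from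
the closed subscheme `𝒳'` defined by the `R_l` to the closed subscheme `𝒳` defined by the `P_l`, that is,
they have no common zero on the special fibre of `𝒳'` (some powers of the coordinates are in the
ideal generated by the `R_l` and the `Φ_i` modulo the maximal ideal) and the polynomials
`P_l(Φ_0, ..., Φ_n)` are in the ideal `(R_1, ..., R_s)`; and the morphism is inseparable: modulo this ideal
and modulo polynomials with coefficients of absolute value at most `β` the `Φ_i` are `p`-th powers. For
`β < 1` this means that the morphism of the special fibres factors through the Frobenius morphism, in
a way which is compatible with the projective embeddings.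

`IsTower T P Φ e β`: a tower of flat models with reduced special fibres, the transition maps of which are
inseparable with the same `β`.

`Within T E P ρ d`: Q1 up to the fixed radius `ρ`: there is a closed subset `Y` of dimension at least `d`
defined over `E` with `|P_l(y♯)| ≤ ρ` for all `l` and all points `y` of `Y` in the unit ball. For `ρ < 1` it says
that the reductions of the points `y♯` are on the special fibre, and more precisely that they are
on `𝒳` modulo elements of absolute value `ρ`. It holds if the equations can be lifted: if there are
forms over `E` with coefficients `c'` such that `|c - c'♯| ≤ ρ` for the coefficients `c` of the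
`P_l` (`IsNear`), and if they define a closed subset of dimension at least `d` (second part of the
theorem). `HasQ1 T K E P d` is Q1 for the set of the common zeros of the `P_l`, if it has dimension at
most `d`.

`IsResLift T τ`: `τ` is a ring homomorphism from `O` to `E` with `|c - τ(c)♯| < 1` for all `c`, that is, it
comes from a field in the ring of integers of `E = K♭` which is mapped isomorphically onto the residue
field, which is the residue field of `K`. It exists for every perfectoid field `K` (the residue field is
perfect and `K♭` is complete). For `K = C`, `E = F` the theorem contains a proof that `BaseField` and
`IsResLift` are satisfied, so that for algebraically closed `K` there is no hypothesis on the field.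

Theorem. (1) Let `𝒳_0 ← 𝒳_1 ← 𝒳_2 ← ...` be a tower of flat models with reduced special fibres
(in projective spaces of arbitrary dimensions), the transition maps of which are inseparable with the
same `β < 1`. If there is a `ρ < 1` such that Q1 holds for all the `𝒳_m` up to the radius `ρ`, then Q1
holds for the generic fibre `X_0` of `𝒳_0`, that is, up to arbitrarily small radii.
(2) A lift of the equations to `E` up to the radius `ρ` which has the right dimension gives Q1 up to `ρ`.
(3) If `𝒳` is a flat model with reduced special fibre and has an inseparable self-map then Q1 holds
for its generic fibre.
(4) The hypotheses on the fields hold for `K = C`.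

The main example (not part of the formal statement) is `X = A` an abelian variety over `K` with good
reduction, of any dimension, with the self-map `Φ` = multiplication by `p`. Let `𝒜` be the abelian scheme
over `O`, `L` the square of a symmetric ample line bundle on it, embed `𝒜` by `L ^ k`, `k ≥ 3`. Then
`[p]^* L = L ^ (p ^ 2)`. As the embedding is projectively normal, also for the special fibre, the
homogeneous coordinate ring is flat with reduced special fibre, and `[p]` is given by forms of degree
`p ^ 2`. On the special fibre `[p] = V ∘ Frob` with the Verschiebung `V`, and `V^* L` is the `p`-th power of
the Frobenius twist of `L`, so `V` is given by forms of degree `p`, and `[p]` is inseparable.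
With the theorems on images and on the descent of the base field of the starting point, Q1
follows for all abelian varieties over `K` with potentially good reduction in all projective
embeddings over `K` (for a symmetric very ample `N`, `[k]^* N` is the `k`-th power of `N ^ k`, hence `A`
embedded by `N` is the image of `A` embedded by `N ^ k` under forms of degree `k`, `k = 6`; every `N` is
symmetric after a translation, over a finite extension of `K`), for all their quotients by finite groups,
such as Kummer varieties, in all projective embeddings, and for all complete intersections in
them, such as smooth curves, surfaces, ... of general type. Abelian varieties of dimension greater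
than one which are not isogenous to products of elliptic curves do not seem to be covered by the known
results (complete intersections of dimension greater than one have no non-constant morphism to them). The towers are the natural setting for bad reduction (`A = G / M` and the tower of the
quotients `A_m = G / M ^ (1 / p ^ m)` of the Raynaud extension `G` with the transition maps induced by the
multiplication by `p` on `G`), and for coverings `𝒳_m` of a fixed variety of any kind: part (1)
reduces Q1 to finding approximations up to one fixed radius, a question on the deformation of
`𝒳_m` modulo `p ^ c` to characteristic `p`, which does not become harder when the neighbourhood shrinks.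

Proof. The idea is that the transition maps contract the tubes around the `X_m`.

* The lift of the residue field (`exists_section`, `exists_lift` for `C`): the valuation ring of an
algebraically closed field of characteristic `p` contains a field mapped isomorphically onto the
residue field. If `Y` is the set of the common zeros of the `τ(P_l)`, then it has the dimension of
the special fibre (`dimGE_residue`, `dimGE_transfer`), and `|P_l(t♯)| ≤ ρ` on it with some `ρ < 1`, as
`x ↦ x♯` is additive modulo `p` (`near_lift`, `near_coeff`). So Q1 holds up to some radius `ρ < 1`.
* The contraction (`contraction_unif`): let `a` be an element of the maximal ideal with `|p| ≤ |a|` and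
`β ≤ |a|`. We may change the `Φ_i` by elements of the ideal `I = (R_1, ..., R_s)` so that all their
derivatives are divisible by `a`. The polynomial `f = P_l(Φ)` is in `I`, and its derivatives are
divisible by `a`. As `p`-th roots exist modulo `p` in `O`, it is congruent to a `p`-th power `g ^ p` modulo
`a`. By flatness (the graded pieces of the coordinate ring are free `O`-modules, as `O` is a valuation
ring) `g` is, modulo `I`, a multiple `c w` where the reduction of `w` is not in the reduction of `I`.
If `a` does not divide `c ^ p` then `c ^ p (w ^ p + a'' s) ∈ I` with `|a''| < 1`, hence `w ^ p` is in
the reduction of `I` and, as the special fibre is reduced, `w` is, a contradiction. So `f = Q ^ p + a s`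
with `Q` in `I`, and `s` is in `I` by flatness. Therefore `|R_l(z)| ≤ δ ≤ ρ` for all `l` implies
`|P_l(Φ(z))| ≤ max(δ ^ p, |a| δ) ≤ λ δ` with the constant `λ = max(ρ, |a|) < 1`. So the composition
`Ψ_m` of `m` transition maps sends the tube of radius `ρ` around `X_m` to the tube of radius `λ ^ m ρ` around
`X_0`, and points of norm `1` to points of norm `1` (`comps_contract`).
* Approximate the equations `y_i ^ D = Ψ_{m, i}(z)` by forms over `E`, and let `Y` be the set of the
`(y_i ^ D)` for their solutions `(z, y)` with `z` in the closed subset given by Q1 up to `ρ` for `𝒳_m`. Then `Y`
is closed and defined over `E`, its dimension is at least `d`, and `y♯` is in a small tube around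
`X_0` for all points of `Y` (`within_of_map`). The upper bound for the dimension and Q1 follow as in the
starting point.
-/

set_option autoImplicit false

namespace Pool.Agent.Results.MP_db3ab1_ag.InseparableTowers

open MvPolynomial Pool.Agent.Y129.TA Pool.Agent.Y129.TB Pool.Agent.Helper45M.DB

/-- (1) Q1 holds for the bottom of every tower of flat models with reduced special fibres and
uniformly inseparable transition maps the members of which can be approximated up to one fixed
radius; (2) lifts of the equations give such approximations; (3) Q1 holds for the generic fibre of every
flat model with reduced special fibre which has an inseparable self-map; (4) the hypotheses on the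
fields hold for `K = C`. -/
theorem result {p : ℕ} [Fact p.Prime] {C F : Type} [Field C] [Field F] [CharP F p]
    [IsAlgClosed C] [IsAlgClosed F] (T : Tilting p C F) :
    (∀ (K E : Type) [Field K] [Field E] [Algebra K C] [Algebra E F], BaseField T K E →
      (∀ (n r e : ℕ → ℕ) (d : ℕ) (β ρ : ℝ)
        (P : ∀ m, Fin (r m) → MvPolynomial (Fin (n m + 1)) (OT T.toTiltPair K))
        (Φ : ∀ m, Fin (n m + 1) → MvPolynomial (Fin (n (m + 1) + 1)) (OT T.toTiltPair K)),
        β < 1 → ρ < 1 → IsTower T.toTiltPair P Φ e β → (∀ m, Within T.toTiltPair E (P m) ρ d) →
          HasQ1 T.toTiltPair K E (P 0) d) ∧
      (∀ (n r d : ℕ) (ρ : ℝ) (P : Fin r → MvPolynomial (Fin (n + 1)) (OT T.toTiltPair K))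
        (P' : Fin r → MvPolynomial (Fin (n + 1)) E), T.absK p ≤ ρ → ρ < 1 →
        (∀ l, IsForm (P' l)) → IsNear T.toTiltPair P P' ρ → DimGE (zeros F P') d →
          Within T.toTiltPair E P ρ d) ∧
      ((∃ τ : OT T.toTiltPair K →+* E, IsResLift T.toTiltPair τ) → ∀ (n r d e : ℕ) (β : ℝ)
        (P : Fin r → MvPolynomial (Fin (n + 1)) (OT T.toTiltPair K))
        (Φ : Fin (n + 1) → MvPolynomial (Fin (n + 1)) (OT T.toTiltPair K)), β < 1 →
        IsModel T.toTiltPair P → IsInseparableMap T.toTiltPair P P Φ e β →
        DimGE (zeros C P) d → HasQ1 T.toTiltPair K E P d)) ∧
    BaseField T C F ∧ ∃ τ : OT T.toTiltPair C →+* F, IsResLift T.toTiltPair τ := by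
  refine ⟨fun K E _ _ _ _ B => ⟨fun n r e d β ρ P Φ hβ hρ hP hw hle => ?_,
    fun n r d ρ P P' hpρ hρ hP' hc hdim => within_of_coeff T hpρ hρ P P' hP' hc hdim,
    fun hτ n r d e β P Φ hβ hP hΦ hge hle => ?_⟩, baseField_self T, exists_lift T⟩
  · exact approximable_of_within T B (hP.model 0).form
      (fun ε hε => within_of_tower T B hβ hρ hP.model hP.maps hw hε) hle
  · obtain ⟨τ, hτ⟩ := hτ
    obtain ⟨ρ, hρ, hw⟩ := within_of_lift T hτ P hP.form hge
    exact approximable_of_within T B hP.form (fun ε hε => within_of_tower T B (n := fun _ => n)
      (r := fun _ => r) (e := fun _ => e) (P := fun _ => P) (Φ := fun _ => Φ) hβ hρ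
      (fun _ => hP) (fun _ => hΦ) (fun _ => hw) hε) hle

end Pool.Agent.Results.MP_db3ab1_ag.InseparableTowers
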