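import Pool.Agent.Helper45M.UR.Tow

/-!
# Q1 up to a uniform radius for all projective varieties; towers of bounded complexity

The setting and the notions `TiltPair`, `Tilting`, `InTube`, `DimGE`, `DimLE`, `IsClosedCone` are those of the
starting files and of `InseparableTowers`: `C` is an algebraically closed perfectoid field of characteristic
`0` and residue characteristic `p`, `F = C♭` its tilt, `sharp : F → C` the map `x ↦ x♯`, `absK` the
absolute value of `C`. Closed subsets of projective space are given by their cones. `InTube P_l D ρ y` says
`|P_l(y♯)| ≤ ρ ‖y‖ ^ D`.

Q1 asks, for a closed subset `X` of `ℙ^n` over `C` of dimension `d` with equations `P_l` and for every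
`ε > 0`, for a closed subset `Y` of `ℙ^n` over `F` of dimension `d` the points of which are in the tube of
radius `ε` around `X`. It is open for general `X`. We show that there is ONE radius `ρ < 1`, which
depends only on `p` and on bounds for `n`, for the number and for the degrees of the equations, such that
all `X` over all `C` have such a `Y` in the tube of radius `ρ`. Equivalently (`IsTilt`): every system of forms
over `O_C` with a zero set of dimension at least `d` is, up to `ρ`, a tilt of a system over `F` with zero
set of dimension at least `d`. For one fixed `X` it was known that there is some radius `ρ < 1` (lift the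
special fibre), but this radius depends on `X`: it goes to `1` when `X` degenerates, as the coefficients
of the equations are only matched up to some `|c - c'♯| ≤ ρ_X < 1`.

Theorem. Let `p` be a prime.
(1) (Solutions.) For every finite system of polynomials `w_j` with integer coefficients in finitely many
variables there is an `N > 0` such that, for all `C`, every solution `c` of the system in `O_C` is near
to the sharp of a solution `c'` in `F = C♭`: `|c_i - c'_i♯| ^ N ≤ |p|` for all `i`.
(2) (Varieties.) For all `B`, `d` there is an `N > 0` such that for all `C`, all `n ≤ B`, all `r ≤ B`, all
forms `P_1, ..., P_r` in `n + 1` variables of degrees at most `B` with coefficients in `O_C` the common zeros of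
which have dimension at least `d`: there are forms `P'_l` over `F` of the same degrees, the common zeros of
which have dimension at least `d` and with coefficients within `|p| ^ (1 / N)` of the coefficients of the
`P_l`, and there is a closed subset `Y` of dimension `d` defined over `F` in the tube of radius
`|p| ^ (1 / N)`, that is, with `|P_l(y♯)| ≤ |p| ^ (1 / N) ‖y‖ ^ (deg P_l)` for all `l` and all points `y`
of `Y`.
(3) (Towers.) Let `𝒳_0 ← 𝒳_1 ← 𝒳_2 ← ...` be a tower of flat models with reduced special fibres
(`IsTower` of `InseparableTowers`) with uniformly inseparable transition maps, the members of which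
have dimension `d` and bounded complexity: they are in `ℙ^n` for bounded `n` and are given by a bounded number
of equations of bounded degrees. Then Q1 (all radii) holds for the generic fibre of `𝒳_0`.
So the hypothesis of `InseparableTowers` that all the members of the tower satisfy Q1 up to one fixed radius
is satisfied automatically when the complexity is bounded. For self-maps all members are equal, and (3)
contains the theorem on self-maps over `C`.

Example for (3) (not part of the formal statement): an abelian variety `A` over `C` with arbitrary
(bad) reduction. By Raynaud, `A = G / M` for an extension `G` of an abelian variety `B` with good reduction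
by a torus and a lattice `M` in `G`. The towers `A ← A_1 ← A_2 ← ...` of the quotients of `G` by
lattices `M_m`, with transition maps induced by endomorphisms of `G` which are divisible by Frobenius on the
special fibre, consist of polarized abelian varieties of one type, so that their models can be expected
to have bounded complexity.

Proof. By contradiction, with an ultraproduct and a coarse valuation.
* If there is no `N` then there are counterexamples `(C_k, F_k, P_k)` for `N = k + 1`. Let `𝒱` be the ring of
the sequences `c` with `c_k` in `O_{C_k}`, modulo the prime ideal `𝒫` of the sequences which are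
infinitesimal: `|c_k| ^ N ≤ |p|` for almost all `k` (along an ultrafilter) and some `N > 0`. In the language of
the coarse valuation: on the ultraproduct of the `C_k` the convex subgroup of the value group generated by
`|p|` is collapsed, and `κ` is the residue field of the coarsened valuation. Here `p` is in `𝒫`, and
`κ` is a field of characteristic `p`, algebraically closed, with its own residue field. The point is that
there are two such rings, for the `C_k` and for the `F_k`, and that the sharp maps induce an isomorphism of
the two quotients, as `(a + b)♯ - a♯ - b♯` is divisible by `p` (`psiT`).
* `κ`, as the residue field of the valuation ring of an algebraically closed field of characteristic `p` (the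
ultraproduct of the `F_k`), lifts to a subfield of this ring (`exists_section'`): there is a ring homomorphism
`τ` from the ring of the sequences for the `C_k` to the ultraproduct of the `F_k` with
`c - τ(c)♯` infinitesimal for all `c` (`exists_tau`).
* Dimension: the zeros of the reductions of the `P_l` in `κ` have dimension at least `d`, as the zeros of the
`P_l` have it (specialization, `dimGE_kap`). The dimension is unchanged under the field extension `τ`,
and a property of almost all `F_k` (`seq_forms`). So almost all `k` are no counterexamples.
* The points of the zero set of the `P'_l` are in the tube, as the sharp map is additive modulo `p`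
(`inTube_of_near`), and a closed set of dimension at least `d` contains one of dimension `d`
(`exists_sub`). Part (1) is the same argument without the step about the dimension.
* (3) follows from (2) and the contraction theorem of `InseparableTowers`.
-/

set_option autoImplicit false

namespace Pool.Agent.Results.MP_db3ab1_ag.UniformRadius

open MvPolynomial Pool.Agent.Y129.TA Pool.Agent.Y129.TB Pool.Agent.Helper45M.DB
open Pool.Agent.Helper45M.UR

/-- (1) Solutions of integral systems over `O_C` are near to sharps of solutions over `F`, up to a uniform
radius; (2) Q1 up to a uniform radius for all closed sets of bounded complexity; (3) Q1 for the bottoms of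
all inseparable towers of bounded complexity. -/
theorem result (p : ℕ) [Fact p.Prime] :
    (∀ (s t : ℕ) (w : Fin t → MvPolynomial (Fin s) ℤ), ∃ N : ℕ, 0 < N ∧
      ∀ (C F : Type) [Field C] [Field F] [CharP F p] [IsAlgClosed C] [IsAlgClosed F]
        (T : Tilting p C F) (c : Fin s → C), (∀ i, T.absK (c i) ≤ 1) →
        (∀ j, aeval c (w j) = 0) → ∃ c' : Fin s → F,
          (∀ i, T.absK (c i - T.sharp (c' i)) ^ N ≤ T.absK p) ∧ ∀ j, aeval c' (w j) = 0) ∧
    (∀ B d : ℕ, ∃ N : ℕ, 0 < N ∧
      ∀ (C F : Type) [Field C] [Field F] [CharP F p] [IsAlgClosed C] [IsAlgClosed F]
        (T : Tilting p C F) (n r : ℕ) (D : Fin r → ℕ)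
        (P : Fin r → MvPolynomial (Fin (n + 1)) C), n ≤ B → r ≤ B →
        IsSystem T.toTiltPair P D B → DimGE {x : Fin (n + 1) → C | ∀ l, eval x (P l) = 0} d →
        (∃ P', IsTilt T.toTiltPair P D N d P') ∧
        ∃ Y : Set (Fin (n + 1) → F), IsClosedCone Y ∧ DimGE Y d ∧ DimLE Y d ∧
          ∀ y ∈ Y, ∀ l, T.toTiltPair.InTube (P l) (D l) (T.absK p ^ (1 / (N : ℝ))) y) ∧
    (∀ (C F : Type) [Field C] [Field F] [CharP F p] [IsAlgClosed C] [IsAlgClosed F]
      (T : Tilting p C F) (B d : ℕ) (n r e : ℕ → ℕ) (β : ℝ)
      (P : ∀ m, Fin (r m) → MvPolynomial (Fin (n m + 1)) (OT T.toTiltPair C))
      (Φ : ∀ m, Fin (n m + 1) → MvPolynomial (Fin (n (m + 1) + 1)) (OT T.toTiltPair C)),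
      β < 1 → IsTower T.toTiltPair P Φ e β → (∀ m, n m ≤ B) → (∀ m, r m ≤ B) →
      (∀ m l, (P m l).totalDegree ≤ B) → (∀ m, DimGE (zeros C (P m)) d) →
        HasQ1 T.toTiltPair C F (P 0) d) := by
  refine ⟨fun s t w => ?_, fun B d => uniform_main p B d,
    fun C F _ _ _ _ _ T B d n r e β P Φ hβ hT hn hr hD hd => tower_bounded T hβ hT hn hr hD hd⟩
  obtain ⟨N, hN, h⟩ := uniform_solutions_pair (p := p) w
  exact ⟨N, hN, fun C F _ _ _ _ _ T c hc hw => h ⟨C, F, inferInstance, inferInstance, inferInstance,
    inferInstance, inferInstance, T⟩ c hc hw⟩

end Pool.Agent.Results.MP_db3ab1_ag.UniformRadius
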